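import Pool.Agent.W905.TM.Comb

set_option autoImplicit false

/-!
# TM-STEP
-/

namespace Pool.Agent.W63.TM.Step

open Finset Pool.Agent.W905.TM

theorem pig {J P X : Type} [Fintype P] [DecidableEq P] [DecidableEq X] (a : J → P → X)
    (c v m k : ℕ) (R : Finset P) (hT : Tame c v a) (hk : 1 ≤ k)
    (hm : m * (c * k ^ v) < R.card) (j : Fin k → J) :
    ∃ M ∈ R.powersetCard m, ∀ t, Const (a (j t)) M := by
  have h1 := hT k j hk
  obtain ⟨y, hy, hlt⟩ := Finset.exists_lt_card_fiber_of_mul_lt_card_of_maps_to
    (s := R) (t := univ.image fun (i : P) (t : Fin k) => a (j t) i)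
    (f := fun (i : P) (t : Fin k) => a (j t) i) (n := m)
    (fun i _ => Finset.mem_image_of_mem _ (Finset.mem_univ i))
    (lt_of_le_of_lt (by rw [mul_comm]; exact Nat.mul_le_mul_left m h1) hm)
  obtain ⟨M, hM, hMc⟩ := Finset.exists_subset_card_eq hlt.le
  refine ⟨M, Finset.mem_powersetCard.2 ⟨hM.trans (Finset.filter_subset _ _), hMc⟩, ?_⟩
  intro t x hx z hz
  have h2 := (Finset.mem_filter.1 (hM hx)).2
  have h3 := (Finset.mem_filter.1 (hM hz)).2
  have h4 := congrFun (h2.trans h3.symm) t
  exact h4

theorem step : S_STEP := by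
  classical
  intro J P X _ _ _ _ a c v m k ρ R w hT hk h0 h1 hw hR hm hmR
  by_contra hcon
  push Not at hcon
  rcases isEmpty_or_nonempty J with hJ | hJ
  · obtain ⟨M, hM, hMc⟩ := Finset.exists_subset_card_eq hmR
    have h := hcon M hM hMc
    have e1 : ∑ j, w j = 0 := by
      apply Finset.sum_eq_zero; intro j _; exact (hJ.false j).elim
    have e2 : ∑ j ∈ univ.filter (fun j => ¬ Const (a j) M), w j = 0 := by
      apply Finset.sum_eq_zero; intro j _; exact (hJ.false j).elim
    rw [e1, e2, mul_zero] at h
    exact lt_irrefl _ h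
  · set W : ℝ := ∑ j, w j with hW
    have hWpos : 0 < W := Finset.sum_pos (fun j _ => hw j) Finset.univ_nonempty
    set unc : Finset P → ℝ := fun M => ∑ j, if Const (a j) M then w j else 0 with hunc
    have hu0 : ∀ M, 0 ≤ unc M := by
      intro M
      apply Finset.sum_nonneg
      intro j _
      split_ifs
      · exact (hw j).le
      · exact le_rfl
    have hu1 : ∀ M ∈ R.powersetCard m, unc M ≤ (1 - ρ) * W := by
      intro M hM
      rw [Finset.mem_powersetCard] at hM
      have h := hcon M hM.1 hM.2
      have h2 : ∑ j ∈ univ.filter (fun j => ¬ Const (a j) M), w j = W - unc M := by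
        rw [Finset.sum_filter, hW, hunc, ← Finset.sum_sub_distrib]
        refine Finset.sum_congr rfl fun j _ => ?_
        by_cases hc : Const (a j) M
        · simp [hc]
        · simp [hc]
      rw [h2] at h
      linarith
    have hpow : W ^ k ≤ ∑ M ∈ R.powersetCard m, unc M ^ k := by
      have e1 : W ^ k = ∑ j : Fin k → J, ∏ t, w (j t) := Fintype.sum_pow _ _
      have e2 : ∀ M, unc M ^ k = ∑ j : Fin k → J, ∏ t, (if Const (a (j t)) M then w (j t) else 0) :=
        fun M => Fintype.sum_pow _ _
      simp only [e1, e2]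
      rw [Finset.sum_comm]
      apply Finset.sum_le_sum
      intro j _
      obtain ⟨M, hM, hMc⟩ := pig a c v m k R hT hk hm j
      calc ∏ t, w (j t) = ∏ t, (if Const (a (j t)) M then w (j t) else 0) := by
            refine Finset.prod_congr rfl fun t _ => ?_
            rw [if_pos (hMc t)]
        _ ≤ ∑ M ∈ R.powersetCard m, ∏ t, (if Const (a (j t)) M then w (j t) else 0) := by
            apply Finset.single_le_sum (f := fun M =>
              ∏ t, (if Const (a (j t)) M then w (j t) else 0)) _ hM
            intro M' _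
            apply Finset.prod_nonneg
            intro t _
            split_ifs
            · exact (hw _).le
            · exact le_rfl
    have hfin : W ^ k < W ^ k := by
      calc W ^ k ≤ ∑ M ∈ R.powersetCard m, unc M ^ k := hpow
        _ ≤ ∑ M ∈ R.powersetCard m, ((1 - ρ) * W) ^ k := by
            apply Finset.sum_le_sum
            intro M hM
            exact pow_le_pow_left₀ (hu0 M) (hu1 M hM) k
        _ = (R.card.choose m : ℝ) * ((1 - ρ) * W) ^ k := by
            rw [Finset.sum_const, Finset.card_powersetCard, nsmul_eq_mul]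
        _ ≤ (R.card : ℝ) ^ m * ((1 - ρ) * W) ^ k := by
            apply mul_le_mul_of_nonneg_right _ (pow_nonneg (by
              exact mul_nonneg (by linarith) hWpos.le) k)
            exact_mod_cast Nat.choose_le_pow R.card m
        _ = ((R.card : ℝ) ^ m * (1 - ρ) ^ k) * W ^ k := by rw [mul_pow]; ring
        _ < 1 * W ^ k := mul_lt_mul_of_pos_right hR (pow_pos hWpos k)
        _ = W ^ k := one_mul _
    exact lt_irrefl _ hfin

end Pool.Agent.W63.TM.Step
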